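import Pool.Agent.H18.Vari

set_option autoImplicit false

open Finset

/-!
Steps 5, 6, 7 of the popular theorem: convex order, truncated Gibbs inequality, and the numbers.
-/

namespace Pool.Agent.H83.POP

open Pool.Agent.H18

section reals

lemma conv_bound (r s u : ℝ) (hr : 0 ≤ r) (hu : u ≤ s + 1) :
    r * u - Real.exp (u - 1) ≤ r * min (Real.log r) s + r := by
  rcases hr.eq_or_lt with h | h
  · rw [← h]
    have := Real.exp_pos (u - 1)
    simp only [zero_mul, zero_add]
    linarith
  · rcases le_total (Real.log r) s with h1 | h1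
    · rw [min_eq_left h1]
      have h2 := Real.add_one_le_exp (u - 1 - Real.log r)
      rw [Real.exp_sub, Real.exp_log h, le_div_iff₀ h] at h2
      nlinarith
    · rw [min_eq_right h1]
      have h2 := Real.exp_pos (u - 1)
      nlinarith [mul_le_mul_of_nonneg_left hu h.le]

lemma gibbs_point (m f s K : ℝ) (hm : 0 ≤ m) (hf : f ≤ s - K) :
    m * f ≤ m * (min (Real.log m) s - K) + Real.exp (K + f) := by
  have he := Real.exp_pos (K + f)
  rcases hm.eq_or_lt with h | h
  · rw [← h]
    simp only [zero_mul, zero_add]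
    exact he.le
  · rcases le_total (Real.log m) s with h1 | h1
    · rw [min_eq_left h1]
      have h2 := Real.add_one_le_exp (K + f - Real.log m)
      rw [Real.exp_sub, Real.exp_log h, le_div_iff₀ h] at h2
      nlinarith
    · rw [min_eq_right h1]
      nlinarith [mul_le_mul_of_nonneg_left hf h.le]

end reals

variable {G : Type*} [AddCommGroup G] [Fintype G]

/-- Truncated relative entropy of `P` with respect to the uniform distribution. -/
noncomputable def psi (P : G → ℝ) (t : ℝ) : ℝ :=
  ∑ y, P y * min (Real.log (Fintype.card G * P y)) t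

/-- The clamped density. -/
noncomputable def cl (P : G → ℝ) (b t : ℝ) (y : G) : ℝ :=
  max (Real.exp (-b)) (min (Real.exp t) (Fintype.card G * P y))

/-- The truncated logarithm of the density. -/
noncomputable def la (P : G → ℝ) (b t : ℝ) (y : G) : ℝ := Real.log (cl P b t y)

/-- Density of the difference of two independent variables with law `P`, normalised. -/
noncomputable def SS (P : G → ℝ) (x : G) : ℝ := Fintype.card G * ∑ y, P y * P (x - y)

omit [AddCommGroup G] in
lemma cl_pos (P : G → ℝ) (b t : ℝ) (y : G) : 0 < cl P b t y :=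
  lt_of_lt_of_le (Real.exp_pos _) (le_max_left _ _)

omit [AddCommGroup G] in
lemma exp_la (P : G → ℝ) (b t : ℝ) (y : G) : Real.exp (la P b t y) = cl P b t y :=
  Real.exp_log (cl_pos P b t y)

omit [AddCommGroup G] in
lemma la_le (P : G → ℝ) (b t : ℝ) (hbt : -b ≤ t) (y : G) : la P b t y ≤ t := by
  have h : cl P b t y ≤ Real.exp t := max_le (Real.exp_le_exp.2 hbt) (min_le_left _ _)
  have := Real.log_le_log (cl_pos P b t y) h
  rwa [Real.log_exp] at this

omit [AddCommGroup G] in
lemma le_la (P : G → ℝ) (b t : ℝ) (y : G) : -b ≤ la P b t y := by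
  have := Real.log_le_log (Real.exp_pos (-b)) (le_max_left (Real.exp (-b))
    (min (Real.exp t) (Fintype.card G * P y)))
  rwa [Real.log_exp] at this

lemma card_pos' : (0 : ℝ) < Fintype.card G := by
  exact_mod_cast Fintype.card_pos_iff.2 ⟨(0 : G)⟩

lemma psi_le_la (P : G → ℝ) (hP : ∀ y, 0 ≤ P y) (b t : ℝ) :
    psi P t ≤ ∑ y, P y * la P b t y := by
  unfold psi
  refine Finset.sum_le_sum fun y _ => ?_
  rcases (hP y).eq_or_lt with h | h
  · rw [← h]; simp
  · refine mul_le_mul_of_nonneg_left ?_ h.le
    have hr : (0 : ℝ) < Fintype.card G * P y := mul_pos card_pos' h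
    have h1 : Real.exp (min (Real.log (Fintype.card G * P y)) t) ≤ cl P b t y := by
      refine le_trans (le_min ?_ ?_) (le_max_right _ _)
      · exact Real.exp_le_exp.2 (min_le_right _ _)
      · calc Real.exp (min (Real.log (Fintype.card G * P y)) t)
            ≤ Real.exp (Real.log (Fintype.card G * P y)) := Real.exp_le_exp.2 (min_le_left _ _)
          _ = _ := Real.exp_log hr
    have h2 := Real.log_le_log (Real.exp_pos _) h1
    rwa [Real.log_exp] at h2

lemma la_even (P : G → ℝ) (hP : ∀ y, P (-y) = P y) (b t : ℝ) (y : G) :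
    la P b t (-y) = la P b t y := by
  unfold la cl
  rw [hP]

/-- Step 5: the truncated entropy decreases under smoothing, up to one unit. -/
lemma convex_order (P ν : G → ℝ) (hP : IsPr P) (hν : IsPr ν) (s : ℝ) :
    ∑ y, cnv ν P y * min (Real.log (Fintype.card G * cnv ν P y)) s ≤ psi P s + 1 := by
  have hN : (0 : ℝ) < Fintype.card G := card_pos'
  have key : ∀ y, cnv ν P y * min (Real.log (Fintype.card G * cnv ν P y)) s ≤
      ∑ v, ν v * (P (y - v) * min (Real.log (Fintype.card G * P (y - v))) s + P (y - v)) := by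
    intro y
    have h0 : 0 ≤ cnv ν P y := cnv_nonneg _ _ hν.1 hP.1 y
    rcases h0.eq_or_lt with h | h
    · have h1 : ∀ v, ν v * P (y - v) = 0 := by
        have h2 : ∑ v, ν v * P (y - v) = 0 := h.symm
        intro v
        exact (Finset.sum_eq_zero_iff_of_nonneg fun v _ => mul_nonneg (hν.1 v) (hP.1 _)).1 h2 v
          (Finset.mem_univ v)
      rw [← h, zero_mul]
      refine le_of_eq (Finset.sum_eq_zero fun v _ => ?_).symm
      have h3 : ν v * (P (y - v) * min (Real.log (Fintype.card G * P (y - v))) s + P (y - v))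
          = (ν v * P (y - v)) * (min (Real.log (Fintype.card G * P (y - v))) s + 1) := by ring
      rw [h3, h1, zero_mul]
    · set u : ℝ := min (Real.log (Fintype.card G * cnv ν P y)) s + 1 with hu
      have hr : (0 : ℝ) < Fintype.card G * cnv ν P y := mul_pos hN h
      have he : Real.exp (u - 1) ≤ Fintype.card G * cnv ν P y := by
        rw [hu, add_sub_cancel_right]
        calc Real.exp (min (Real.log (Fintype.card G * cnv ν P y)) s)
            ≤ Real.exp (Real.log (Fintype.card G * cnv ν P y)) :=
              Real.exp_le_exp.2 (min_le_left _ _)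
          _ = _ := Real.exp_log hr
      have hus : u ≤ s + 1 := by rw [hu]; linarith [min_le_right (Real.log (Fintype.card G * cnv ν P y)) s]
      have h1 : ∀ v, ν v * (P (y - v) * u - Real.exp (u - 1) / Fintype.card G) ≤
          ν v * (P (y - v) * min (Real.log (Fintype.card G * P (y - v))) s + P (y - v)) := by
        intro v
        refine mul_le_mul_of_nonneg_left ?_ (hν.1 v)
        have h2 := conv_bound (Fintype.card G * P (y - v)) s u
          (mul_nonneg hN.le (hP.1 _)) hus
        have h3 := div_le_div_of_nonneg_right h2 hN.le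
        calc P (y - v) * u - Real.exp (u - 1) / Fintype.card G
            = (Fintype.card G * P (y - v) * u - Real.exp (u - 1)) / Fintype.card G := by
              field_simp
          _ ≤ _ := h3
          _ = _ := by field_simp
      have h4 := Finset.sum_le_sum fun v (_ : v ∈ Finset.univ) => h1 v
      have h5 : ∑ v, ν v * (P (y - v) * u - Real.exp (u - 1) / Fintype.card G)
          = cnv ν P y * u - Real.exp (u - 1) / Fintype.card G := by
        simp_rw [mul_sub]
        rw [Finset.sum_sub_distrib, ← Finset.sum_mul, hν.2, one_mul]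
        unfold cnv
        rw [Finset.sum_mul]
        congr 1
        exact Finset.sum_congr rfl fun v _ => by ring
      rw [h5] at h4
      refine le_trans ?_ h4
      have h6 : Real.exp (u - 1) / Fintype.card G ≤ cnv ν P y := by
        rw [div_le_iff₀ hN]; linarith
      have h7 : cnv ν P y * u = cnv ν P y * min (Real.log (Fintype.card G * cnv ν P y)) s
          + cnv ν P y := by rw [hu]; ring
      linarith
  refine (Finset.sum_le_sum fun y _ => key y).trans (le_of_eq ?_)
  rw [Finset.sum_comm]
  have h1 : ∀ v, ∑ y, ν v * (P (y - v) * min (Real.log (Fintype.card G * P (y - v))) s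
      + P (y - v)) = ν v * (psi P s + 1) := by
    intro v
    rw [← Finset.mul_sum]
    congr 1
    rw [sum_sub_right (fun z => P z * min (Real.log (Fintype.card G * P z)) s + P z) v,
      Finset.sum_add_distrib, hP.2]
    rfl
  simp_rw [h1]
  rw [← Finset.sum_mul, hν.2, one_mul]

/-- Average of the product of the clamped densities. -/
lemma clamp_avg (P : G → ℝ) (hP : IsPr P) (b t : ℝ) (hbt : -b ≤ t) (ht : 0 ≤ t) (x : G) :
    (∑ y, cl P b t y * cl P b t (x - y)) / Fintype.card G ≤ SS P x + 2 * Real.exp (t - b) := by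
  have hN : (0 : ℝ) < Fintype.card G := card_pos'
  have h1 : ∀ y, cl P b t y ≤ Fintype.card G * P y + Real.exp (-b) := by
    intro y
    have h2 : 0 ≤ Fintype.card G * P y := mul_nonneg hN.le (hP.1 y)
    have h3 := Real.exp_pos (-b)
    exact max_le (by linarith) ((min_le_right _ _).trans (by linarith))
  have h2 : ∀ y, cl P b t y ≤ Real.exp t := fun y =>
    max_le (Real.exp_le_exp.2 hbt) (min_le_left _ _)
  have h3 : ∀ y, cl P b t y * cl P b t (x - y) ≤
      (Fintype.card G) ^ 2 * (P y * P (x - y)) + Real.exp (-b) * (Fintype.card G * P y)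
        + Real.exp (t - b) := by
    intro y
    have e0 : Real.exp (t - b) = Real.exp (-b) * Real.exp t := by
      rw [← Real.exp_add]; congr 1; ring
    have e1 := (cl_pos P b t (x - y)).le
    have e2 : 0 ≤ Fintype.card G * P y := mul_nonneg hN.le (hP.1 y)
    calc cl P b t y * cl P b t (x - y)
        ≤ (Fintype.card G * P y + Real.exp (-b)) * cl P b t (x - y) :=
          mul_le_mul_of_nonneg_right (h1 y) e1
      _ = Fintype.card G * P y * cl P b t (x - y) + Real.exp (-b) * cl P b t (x - y) := by ring
      _ ≤ Fintype.card G * P y * (Fintype.card G * P (x - y) + Real.exp (-b))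
          + Real.exp (-b) * Real.exp t := by
          have e3 := mul_le_mul_of_nonneg_left (h1 (x - y)) e2
          have e4 := mul_le_mul_of_nonneg_left (h2 (x - y)) (Real.exp_pos (-b)).le
          linarith
      _ = _ := by rw [e0]; ring
  have h4 := Finset.sum_le_sum fun y (_ : y ∈ Finset.univ) => h3 y
  rw [Finset.sum_add_distrib, Finset.sum_add_distrib, ← Finset.mul_sum, ← Finset.mul_sum,
    ← Finset.mul_sum, hP.2, Finset.sum_const, Finset.card_univ, nsmul_eq_mul] at h4
  rw [div_le_iff₀ hN]
  refine h4.trans ?_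
  have e5 : Real.exp (-b) ≤ Real.exp (t - b) := Real.exp_le_exp.2 (by linarith)
  have e6 := mul_le_mul_of_nonneg_right e5 hN.le
  unfold SS
  nlinarith

/-- Step 6: truncated Gibbs inequality. -/
lemma gibbs (P μ : G → ℝ) (hP : IsPr P) (hμ : IsPr μ) (b t K : ℝ) (hbt : -b ≤ t)
    (ht : 0 ≤ t) (x : G) :
    ∑ y, μ y * (la P b t y + la P b t (x - y)) ≤
      ∑ y, μ y * min (Real.log (Fintype.card G * μ y)) (2 * t + K) - K
        + Real.exp K * (SS P x + 2 * Real.exp (t - b)) := by
  have hN : (0 : ℝ) < Fintype.card G := card_pos'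
  have h1 : ∀ y, μ y * (la P b t y + la P b t (x - y)) ≤
      μ y * min (Real.log (Fintype.card G * μ y)) (2 * t + K) - μ y * K
        + Real.exp K * (cl P b t y * cl P b t (x - y)) / Fintype.card G := by
    intro y
    have h2 := gibbs_point (Fintype.card G * μ y) (la P b t y + la P b t (x - y)) (2 * t + K) K
      (mul_nonneg hN.le (hμ.1 y)) (by
        have e1 := la_le P b t hbt y
        have e2 := la_le P b t hbt (x - y)
        linarith)
    rw [Real.exp_add, Real.exp_add, exp_la, exp_la] at h2
    have h3 := div_le_div_of_nonneg_right h2 hN.le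
    calc μ y * (la P b t y + la P b t (x - y))
        = Fintype.card G * μ y * (la P b t y + la P b t (x - y)) / Fintype.card G := by
          field_simp
      _ ≤ _ := h3
      _ = _ := by field_simp
  have h4 := Finset.sum_le_sum fun y (_ : y ∈ Finset.univ) => h1 y
  rw [Finset.sum_add_distrib, Finset.sum_sub_distrib, ← Finset.sum_mul, hμ.2, one_mul,
    ← Finset.sum_div, ← Finset.mul_sum] at h4
  have h5 := clamp_avg P hP b t hbt ht x
  have h6 := mul_le_mul_of_nonneg_left h5 (Real.exp_pos K).le
  rw [mul_div_assoc] at h4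
  linarith

/-- Steps 5 to 7. -/
theorem pop_core (P ν μ : G → ℝ) (hP : IsPr P) (hν : IsPr ν) (hμ : ∀ y, μ y = cnv ν P y)
    (b t K η c : ℝ) (hbt : -b ≤ t) (ht : 0 ≤ t) (x : G)
    (h1 : c ≤ 2 * psi P t - psi P (2 * t + K) - 1 + K)
    (h2 : ∑ y, P y * la P b t y - η ≤ ∑ y, μ y * la P b t y)
    (h3 : ∑ y, P y * la P b t y - η ≤ ∑ y, μ y * la P b t (x - y)) :
    Real.exp (-K) * (c - 2 * η) - 2 * Real.exp (t - b) ≤ SS P x := by
  have hμe : μ = cnv ν P := funext hμ
  have hμP : IsPr μ := by rw [hμe]; exact hν.cnv hP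
  have e1 := gibbs P μ hP hμP b t K hbt ht x
  have e2 := convex_order P ν hP hν (2 * t + K)
  rw [← hμe] at e2
  have e3 := psi_le_la P hP.1 b t
  simp_rw [mul_add] at e1
  rw [Finset.sum_add_distrib] at e1
  have e4 : c - 2 * η ≤ Real.exp K * (SS P x + 2 * Real.exp (t - b)) := by linarith
  have e5 := mul_le_mul_of_nonneg_left e4 (Real.exp_pos (-K)).le
  have e6 : Real.exp (-K) * (Real.exp K * (SS P x + 2 * Real.exp (t - b)))
      = SS P x + 2 * Real.exp (t - b) := by
    rw [← mul_assoc, ← Real.exp_add, neg_add_cancel, Real.exp_zero, one_mul]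
  rw [e6] at e5
  linarith

end Pool.Agent.H83.POP
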