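import Pool.Agent.H83.POP.Core

set_option autoImplicit false

open Finset

/-!
Step 1 (choice of the scale) and the numbers of Step 7.
-/

namespace Pool.Agent.H83.POP

open Pool.Agent.H18

/-- The weight of the scale `j`. -/
noncomputable def cj (j : ℕ) : ℝ := 1 / (4 * ((j : ℝ) + 1) ^ 2)

lemma cj_pos (j : ℕ) : 0 < cj j := by unfold cj; positivity

lemma sum_sq_le' (J : ℕ) :
    ∑ j ∈ Finset.range (J + 1), 1 / ((j : ℝ) + 1) ^ 2 ≤ 2 - 1 / ((J : ℝ) + 1) := by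
  induction J with
  | zero => norm_num
  | succ J ih =>
    rw [Finset.sum_range_succ]
    have hJ : (0 : ℝ) < (J : ℝ) + 1 := by positivity
    have hJ2 : (0 : ℝ) < (J : ℝ) + 1 + 1 := by positivity
    have h1 : 1 / ((J : ℝ) + 1) - 1 / ((J : ℝ) + 1 + 1)
        = 1 / (((J : ℝ) + 1) * ((J : ℝ) + 1 + 1)) := by field_simp; ring
    have h2 : (1 : ℝ) / ((J : ℝ) + 1 + 1) ^ 2 ≤ 1 / (((J : ℝ) + 1) * ((J : ℝ) + 1 + 1)) := by
      apply one_div_le_one_div_of_le (mul_pos hJ hJ2)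
      nlinarith
    push_cast
    linarith

lemma sum_sq_le (J : ℕ) : ∑ j ∈ Finset.range J, 1 / ((j : ℝ) + 1) ^ 2 ≤ 2 := by
  rcases Nat.eq_zero_or_pos J with h | h
  · subst h; norm_num
  · obtain ⟨J, rfl⟩ := Nat.exists_eq_succ_of_ne_zero h.ne'
    have h1 := sum_sq_le' J
    have h2 : (0 : ℝ) < 1 / ((J : ℝ) + 1) := by positivity
    exact h1.trans (by linarith)

/-- Step 1. -/
theorem scale (ps : ℝ → ℝ) (L : ℝ) (h0 : -1 ≤ ps 0) (h1 : ∀ t, ps t ≤ L) :
    ∃ j : ℕ, (2 : ℝ) ^ j < (L + 16) / 8 ∧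
      cj j * (16 * 2 ^ j) ≤
        2 * ps (16 * 2 ^ j - 16) - ps (2 * (16 * 2 ^ j - 16) + 16) - 1 + 16 := by
  by_contra hcon
  push Not at hcon
  have hstep : ∀ J : ℕ, (∀ j < J, (2 : ℝ) ^ j < (L + 16) / 8) →
      15 / 16 - 1 / 16 * (1 - 1 / 2 ^ J) - 1 / 8 * ∑ j ∈ Finset.range J, 1 / ((j : ℝ) + 1) ^ 2
        ≤ (ps (16 * 2 ^ J - 16) + 16) / (16 * 2 ^ J) := by
    intro J
    induction J with
    | zero =>
      intro _
      norm_num
      linarith
    | succ J ih =>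
      intro hJ
      have ih1 := ih fun j hj => hJ j (Nat.lt_succ_of_lt hj)
      have h2 := hcon J (hJ J (Nat.lt_succ_self J))
      have e1 : (2 : ℝ) * (16 * 2 ^ J - 16) + 16 = 16 * 2 ^ (J + 1) - 16 := by
        rw [pow_succ]; ring
      rw [e1] at h2
      have hp : (0 : ℝ) < 2 ^ J := by positivity
      rw [le_div_iff₀ (by positivity)] at ih1
      rw [Finset.sum_range_succ, le_div_iff₀ (by positivity), pow_succ]
      rw [pow_succ] at h2
      unfold cj at h2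
      set A := ps (16 * 2 ^ J - 16) with hA
      set B := ps (16 * (2 ^ J * 2) - 16) with hB
      set S := ∑ j ∈ Finset.range J, 1 / ((j : ℝ) + 1) ^ 2 with hS
      set q : ℝ := 2 ^ J with hq
      have e2 : 1 / (4 * ((J : ℝ) + 1) ^ 2) * (16 * q) = 1 / ((J : ℝ) + 1) ^ 2 * (4 * q) := by
        field_simp; ring
      rw [e2] at h2
      have e3 : 1 / 2 ^ J * q = 1 := by rw [← hq]; field_simp
      have e4 : 1 / (q * 2) * (q * 2) = 1 := by field_simp
      have e5 : (15 / 16 - 1 / 16 * (1 - 1 / (q * 2))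
          - 1 / 8 * (S + 1 / ((J : ℝ) + 1) ^ 2)) * (16 * (q * 2))
          = 30 * q - 2 * q + 1 / (q * 2) * (q * 2) - 4 * q * S
            - 4 * q * (1 / ((J : ℝ) + 1) ^ 2) := by ring
      have e6 : (15 / 16 - 1 / 16 * (1 - 1 / q) - 1 / 8 * S) * (16 * q)
          = 15 * q - q + 1 / q * q - 2 * q * S := by ring
      have e7 : 1 / q * q = 1 := by field_simp
      rw [e5, e4]
      rw [e6, e7] at ih1
      nlinarith
  -- the first scale with 2 ^ J large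
  have hex : ∃ J : ℕ, (L + 16) / 8 ≤ (2 : ℝ) ^ J := by
    obtain ⟨J, hJ⟩ := pow_unbounded_of_one_lt ((L + 16) / 8) (by norm_num : (1 : ℝ) < 2)
    exact ⟨J, hJ.le⟩
  classical
  set J := Nat.find hex with hJ
  have h2 := Nat.find_spec hex
  rw [← hJ] at h2
  have h3 := hstep J fun j hj => not_le.1 (Nat.find_min hex hj)
  have h4 : (ps (16 * 2 ^ J - 16) + 16) / (16 * 2 ^ J) ≤ 1 / 2 := by
    rw [div_le_iff₀ (by positivity)]
    have := h1 (16 * 2 ^ J - 16)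
    linarith
  have h5 := sum_sq_le J
  have h6 : (0 : ℝ) < 1 / 2 ^ J := by positivity
  linarith

lemma nine (j : ℕ) : 4 * ((j : ℝ) + 1) ^ 2 ≤ 9 * 2 ^ j := by
  have key : ∀ i : ℕ, 4 * ((i : ℝ) + 2 + 1) ^ 2 ≤ 9 * 2 ^ (i + 2) := by
    intro i
    induction i with
    | zero => norm_num
    | succ i ih =>
      push_cast
      have h1 : (2 : ℝ) ^ (i + 1 + 2) = 2 * 2 ^ (i + 2) := by ring
      rw [h1]
      have h2 : (0 : ℝ) ≤ (i : ℝ) := Nat.cast_nonneg i
      nlinarith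
  rcases j with _ | _ | i
  · norm_num
  · norm_num
  · have := key i
    push_cast
    have e : (i : ℝ) + 1 + 1 + 1 = (i : ℝ) + 2 + 1 := by ring
    rw [e]
    exact this

lemma cjs (j : ℕ) : 16 / 9 ≤ cj j * (16 * 2 ^ j) := by
  unfold cj
  have h1 := nine j
  have h2 : (0 : ℝ) < 4 * ((j : ℝ) + 1) ^ 2 := by positivity
  rw [one_div, inv_mul_eq_div, le_div_iff₀ h2]
  linarith

/-- Numbers of Step 7. -/
lemma numbers (j : ℕ) :
    Real.exp (-16) ≤ Real.exp (-16) * (cj j * (16 * 2 ^ j)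
        - 2 * ((16 * 2 ^ j - 16 + (16 * 2 ^ j - 16 + 18)) * (cj j / 16)))
      - 2 * Real.exp (16 * 2 ^ j - 16 - (16 * 2 ^ j - 16 + 18)) := by
  have h1 := cjs j
  have h2 := cj_pos j
  have e1 : (16 * (2 : ℝ) ^ j - 16 - (16 * 2 ^ j - 16 + 18)) = -16 + -2 := by ring
  rw [e1, Real.exp_add]
  have h3 : 2 * ((16 * (2 : ℝ) ^ j - 16 + (16 * 2 ^ j - 16 + 18)) * (cj j / 16))
      ≤ 1 / 4 * (cj j * (16 * 2 ^ j)) := by
    nlinarith
  have h4 : Real.exp (-2) ≤ 1 / 7 := by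
    rw [Real.exp_neg, ← one_div]
    apply one_div_le_one_div_of_le (by norm_num)
    have h5 := Real.exp_one_gt_d9
    have h6 : Real.exp 2 = Real.exp 1 * Real.exp 1 := by rw [← Real.exp_add]; norm_num
    rw [h6]
    nlinarith
  have h5 := Real.exp_pos (-16)
  nlinarith

end Pool.Agent.H83.POP
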